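import Mathlib
import Pool.Agent.H68.L.R_seed8.W388.TW.D0

/-!
# Nonvanishing of `L(E, χ, 1)` for characters of large order (owner helper192)

`E/ℚ` an elliptic curve, `q` a large prime, `d ∣ q - 1`, `d ≥ q ^ (3/4 + ε)`: there is a Dirichlet
character `χ` mod `q` of exact order `d` with `|L(E, χ, 1)| ≥ q ^ (-ε)`.

Every `def S_... : Prop` is the statement of one part of the project; a proof of it is a theorem
in a file of its own.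
-/

set_option autoImplicit false

open Complex Filter Topology Set UpperHalfPlane MatrixGroups CongruenceSubgroup

namespace Pool.Agent.W192.CY

/-- arithmetic data of the Fourier coefficients `c(n)` of the newform of an elliptic curve -/
structure Coef (N : ℕ) (c : ℕ → ℝ) : Prop where
  zero : c 0 = 0
  one : c 1 = 1
  mul : ∀ m n : ℕ, Nat.Coprime m n → c (m * n) = c m * c n
  pow : ∀ p j : ℕ, p.Prime → c (p ^ (j + 2)) = c p * c (p ^ (j + 1)) -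
    (if p ∣ N then 0 else (p : ℝ) * c (p ^ j))
  good : ∀ p : ℕ, p.Prime → ¬ p ∣ N → |c p| ≤ 2 * Real.sqrt p
  bad : ∀ p : ℕ, p.Prime → p ∣ N → |c p| ≤ 1

/-- `m` is the Dirichlet inverse of `c`, both are bounded by `τ(n) √n` -/
structure Inv (c m : ℕ → ℝ) : Prop where
  zero : c 0 = 0
  one : m 1 = 1
  inv : ∀ k : ℕ, 1 ≤ k → ∑ x ∈ k.divisorsAntidiagonal, m x.1 * c x.2 = if k = 1 then 1 else 0
  cle : ∀ n : ℕ, 1 ≤ n → |c n| ≤ n.divisors.card * Real.sqrt n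
  mle : ∀ n : ℕ, 1 ≤ n → |m n| ≤ n.divisors.card * Real.sqrt n

/-- COEF -/
def S_COEF : Prop := ∀ (N : ℕ) (c : ℕ → ℝ), Coef N c → ∃ m : ℕ → ℝ, Inv c m

/-- DIV : the divisor bound and the bound for Euler's function -/
def S_DIV : Prop := ∀ ε : ℝ, 0 < ε → ∃ C : ℝ, 0 < C ∧
  (∀ n : ℕ, 1 ≤ n → (n.divisors.card : ℝ) ≤ C * (n : ℝ) ^ ε) ∧
  (∀ n : ℕ, 1 ≤ n → (n : ℝ) ^ (1 - ε) ≤ C * (Nat.totient n : ℝ))

/-- the number of solutions of the Weierstrass equation modulo `p` -/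
def pts (W : WeierstrassCurve ℤ) (p : ℕ) : ℕ :=
  ((Finset.range p ×ˢ Finset.range p).filter (fun z : ℕ × ℕ =>
    (p : ℤ) ∣ (z.2 : ℤ) ^ 2 + W.a₁ * z.1 * z.2 + W.a₃ * z.2 -
      ((z.1 : ℤ) ^ 3 + W.a₂ * (z.1 : ℤ) ^ 2 + W.a₄ * z.1 + W.a₆))).card

/-- HAS : Hasse's bound (for `p = 2` it is trivial, for `p` odd complete the square and use the
Weil bound for the quadratic character of a monic cubic) -/
def S_HAS : Prop := ∀ (W : WeierstrassCurve ℤ) (p : ℕ), p.Prime →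
  |(p : ℝ) - (pts W p : ℝ)| ≤ 2 * Real.sqrt p

/-! ## characters -/

/-- the common kernel of the characters `χ` modulo `q` with `χ ^ e = 1` -/
def Hs (q e : ℕ) : Subgroup (ZMod q)ˣ where
  carrier := {x | ∀ χ : DirichletCharacter ℂ q, χ ^ e = 1 → χ (x : ZMod q) = 1}
  one_mem' := fun χ _ => by simp
  mul_mem' := fun {x y} hx hy χ h => by
    rw [Units.val_mul, map_mul, hx χ h, hy χ h, one_mul]
  inv_mem' := fun {x} hx χ h => by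
    have h1 : χ (x : ZMod q) * χ ((x⁻¹ : (ZMod q)ˣ) : ZMod q) = 1 := by
      rw [← map_mul, ← Units.val_mul, mul_inv_cancel, Units.val_one, map_one]
    rw [hx χ h, one_mul] at h1
    exact h1

/-- the characters modulo `q` with `χ ^ e = 1` -/
noncomputable def Ch (q e : ℕ) [NeZero q] : Finset (DirichletCharacter ℂ q) :=
  (Set.toFinite {χ : DirichletCharacter ℂ q | χ ^ e = 1}).toFinset

/-- the characters modulo `q` of exact order `d` -/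
noncomputable def Ex (q d : ℕ) [NeZero q] : Finset (DirichletCharacter ℂ q) :=
  (Set.toFinite {χ : DirichletCharacter ℂ q | orderOf χ = d}).toFinset

/-- ORTH : orthogonality for the characters with `χ ^ e = 1` -/
def S_ORTH : Prop := ∀ (q : ℕ) [Fact q.Prime] (e : ℕ), e ∣ q - 1 →
  e * Nat.card (Hs q e) = q - 1 ∧
  ∀ x : (ZMod q)ˣ, (x ∈ Hs q e → ∑ χ ∈ Ch q e, χ (x : ZMod q) = (e : ℂ)) ∧
    (x ∉ Hs q e → ∑ χ ∈ Ch q e, χ (x : ZMod q) = 0)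

/-- MOB : Möbius inversion -/
def S_MOB : Prop := ∀ (q : ℕ) [Fact q.Prime] (d : ℕ), d ∣ q - 1 →
  (Ex q d).card = Nat.totient d ∧
  ∀ g : DirichletCharacter ℂ q → ℂ, ∑ χ ∈ Ex q d, g χ =
    ∑ e ∈ d.divisors, ((ArithmeticFunction.moebius (d / e) : ℤ) : ℂ) * ∑ χ ∈ Ch q e, g χ

/-- KLOO : Kloosterman sums on average over a coset of `Hs q e` (Weil's bound) -/
def S_KLOO : Prop := ∀ (q : ℕ) [Fact q.Prime] (e : ℕ), e ∣ q - 1 → ∀ y : (ZMod q)ˣ,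
  ‖∑ χ ∈ Ch q e, χ (y : ZMod q) * gaussSum χ (ZMod.stdAddChar (N := q)) ^ 2‖ ≤
    2 * q * Real.sqrt q

/-! ## small integers in a subgroup -/

/-- the integers `1 ≤ k ≤ y` whose residue modulo `q` belongs to `H` -/
noncomputable def cnt (q : ℕ) (H : Subgroup (ZMod q)ˣ) (y : ℝ) : ℕ :=
  {k : ℕ | 1 ≤ k ∧ (k : ℝ) ≤ y ∧ ∃ u ∈ H, ((u : (ZMod q)ˣ) : ZMod q) = (k : ZMod q)}.ncard

/-- COUNT -/
def S_COUNT : Prop := ∀ (j : ℕ), 1 ≤ j → ∀ η : ℝ, 0 < η → ∃ C : ℝ, 0 < C ∧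
  ∀ (q : ℕ) [Fact q.Prime] (H : Subgroup (ZMod q)ˣ) (y : ℝ), 1 ≤ y →
    (cnt q H y : ℝ) ^ j ≤ C * y ^ η * (y ^ j / q + 1) * Nat.card H

/-- the tail sum over a subgroup -/
noncomputable def tail (q : ℕ) (H : Subgroup (ZMod q)ˣ) (B Z η : ℝ) : ℝ :=
  ∑' k : ℕ, Set.indicator {k : ℕ | B < k ∧ ∃ u ∈ H, ((u : (ZMod q)ˣ) : ZMod q) = (k : ZMod q)}
    (fun k : ℕ => (k : ℝ) ^ (-1 / 2 + η) * Real.exp (-(k / Z))) k

/-- TAIL -/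
def S_TAIL : Prop := ∀ ε : ℝ, 0 < ε → ε < 1 / 4 → ∃ η δ C : ℝ, 0 < η ∧ η < 1 / 8 ∧ 0 < δ ∧ 0 < C ∧
  ∀ (q : ℕ) [Fact q.Prime] (d e : ℕ), e ∣ d → d ∣ q - 1 → (q : ℝ) ^ (3 / 4 + ε) ≤ d →
  ∀ H : Subgroup (ZMod q)ˣ, e * Nat.card H = q - 1 →
    (e : ℝ) * tail q H ((q : ℝ) ^ (ε / 2)) ((q : ℝ) ^ (3 / 2 + ε / 2)) η ≤ C * d * (q : ℝ) ^ (-δ)

/-! ## the two parts of the approximate functional equation -/

/-- AFE : the value at the centre -/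
def S_AFE : Prop := ∀ (N : ℕ) [NeZero N] (f : CuspForm (Gamma0 N : Subgroup (GL (Fin 2) ℝ)) 2)
  (ε : ℝ), W388.IsNewf N 2 f ε → ∀ (q : ℕ) [Fact q.Prime] (χ : DirichletCharacter ℂ q),
  ¬ q ∣ N → χ ≠ 1 →
  ∃ F : ℂ → ℂ, Differentiable ℂ F ∧
    (∀ s : ℂ, 1 < s.re → F s = ∑' n : ℕ, χ (n : ZMod q) * (W388.lamf f n : ℂ) * (n : ℂ) ^ (-s)) ∧
    ∀ X Y : ℝ, 0 < X → 0 < Y → X * Y = N * (q : ℝ) ^ 2 / (4 * Real.pi ^ 2) →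
      F (1 / 2) =
        ∑' n : ℕ, χ (n : ZMod q) * (((qExpansion 1 f).coeff n).re : ℂ) / n *
          (Real.exp (-(n / X)) : ℂ) +
        (ε : ℂ) * χ (N : ZMod q) * gaussSum χ (ZMod.stdAddChar (N := q)) ^ 2 / q *
          ∑' n : ℕ, (starRingEnd ℂ) (χ (n : ZMod q)) * (((qExpansion 1 f).coeff n).re : ℂ) / n *
          (Real.exp (-(n / Y)) : ℂ)

/-- MAINP : the main part, mollified -/
def S_MAINP : Prop := ∀ (c m : ℕ → ℝ), c 1 = 1 → Inv c m → ∀ ε : ℝ, 0 < ε → ε < 1 / 4 →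
  ∃ δ C q0 : ℝ, 0 < δ ∧ 0 < C ∧ ∀ (q : ℕ) [Fact q.Prime], q0 ≤ q → ∀ d : ℕ, d ∣ q - 1 →
  (q : ℝ) ^ (3 / 4 + ε) ≤ d →
  ‖∑ b ∈ Finset.Icc 1 ⌊(q : ℝ) ^ (ε / 2)⌋₊, ((m b / b : ℝ) : ℂ) * ∑ χ ∈ Ex q d,
      χ (b : ZMod q) * (∑' n : ℕ, χ (n : ZMod q) * (c n : ℂ) / n *
        (Real.exp (-(n / (q : ℝ) ^ (3 / 2 : ℝ))) : ℂ)) - (Nat.totient d : ℂ)‖ ≤
    C * d * (q : ℝ) ^ (-δ)

/-- DUALP : the dual part -/
def S_DUALP : Prop := ∀ (N : ℕ), 1 ≤ N → ∀ (c m : ℕ → ℝ), Inv c m → ∀ ε : ℝ, 0 < ε → ε < 1 / 4 →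
  ∃ δ C q0 : ℝ, 0 < δ ∧ 0 < C ∧ ∀ (q : ℕ) [Fact q.Prime], q0 ≤ q → ¬ q ∣ N → ∀ d : ℕ, d ∣ q - 1 →
  (q : ℝ) ^ (3 / 4 + ε) ≤ d →
  ‖∑ b ∈ Finset.Icc 1 ⌊(q : ℝ) ^ (ε / 2)⌋₊, ((m b / b : ℝ) : ℂ) * ∑ χ ∈ Ex q d,
      χ (b : ZMod q) * (χ (N : ZMod q) * gaussSum χ (ZMod.stdAddChar (N := q)) ^ 2 / q *
        ∑' n : ℕ, (starRingEnd ℂ) (χ (n : ZMod q)) * (c n : ℂ) / n *
        (Real.exp (-(n / (N * Real.sqrt q / (4 * Real.pi ^ 2)))) : ℂ))‖ ≤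
    C * d * (q : ℝ) ^ (-δ)

/-- FINN : conclusion in abstract form -/
def S_FINN : Prop := ∀ (N : ℕ), 1 ≤ N → ∀ (c : ℕ → ℝ) (w : ℂ), Coef N c → ‖w‖ = 1 →
  ∀ ε : ℝ, 0 < ε → ∃ q0 : ℝ, ∀ (q : ℕ) [Fact q.Prime], q0 ≤ q → ¬ q ∣ N →
  ∀ L : DirichletCharacter ℂ q → ℂ,
    (∀ χ : DirichletCharacter ℂ q, χ ≠ 1 → ∀ X Y : ℝ, 0 < X → 0 < Y →
      X * Y = N * (q : ℝ) ^ 2 / (4 * Real.pi ^ 2) →
      L χ = ∑' n : ℕ, χ (n : ZMod q) * (c n : ℂ) / n * (Real.exp (-(n / X)) : ℂ) +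
        w * χ (N : ZMod q) * gaussSum χ (ZMod.stdAddChar (N := q)) ^ 2 / q *
          ∑' n : ℕ, (starRingEnd ℂ) (χ (n : ZMod q)) * (c n : ℂ) / n *
          (Real.exp (-(n / Y)) : ℂ)) →
    ∀ d : ℕ, d ∣ q - 1 → (q : ℝ) ^ (3 / 4 + ε) ≤ d →
      ∃ χ : DirichletCharacter ℂ q, orderOf χ = d ∧ (q : ℝ) ^ (-ε) ≤ ‖L χ‖

end Pool.Agent.W192.CY
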